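import Pool.Agent.L0h99.MN.Stm2

/-!
# Project MD: the module PKF
-/

set_option autoImplicit false

namespace Pool.Agent.L0h36.MD

open Finset Pool.Agent.L0h99.MN Pool.Agent.L0h99.MD

theorem cn_single {V : Type} [Fintype V] [DecidableEq V] (G : SimpleGraph V) (p : V) :
    Cn G {p} := by
  refine ⟨Finset.singleton_nonempty p, fun X hX hne hX' => ?_⟩
  exact absurd (hne.subset_singleton_iff.1 hX) hX'

theorem PKF : St_PKF := by
  intro V _ _ G S p q hp hq hpq hP
  obtain ⟨B, hB, hd, ha⟩ := hP
  have hne : p ≠ q := hpq.ne
  refine ⟨Fin.cons {p} (Fin.cons {q} B), ?_, ?_, ?_⟩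
  · intro i
    refine Fin.cases ?_ (fun i => ?_) i
    · rw [Fin.cons_zero]
      exact ⟨Finset.singleton_subset_iff.2 hp, cn_single G p⟩
    · rw [Fin.cons_succ]
      refine Fin.cases ?_ (fun i => ?_) i
      · rw [Fin.cons_zero]
        exact ⟨Finset.singleton_subset_iff.2 hq, cn_single G q⟩
      · rw [Fin.cons_succ]
        exact ⟨(hB i).1, (hB i).2.2.2.1⟩
  · have key : ∀ i j : Fin 5, i < j →
        Disjoint ((Fin.cons {p} (Fin.cons {q} B) : Fin 5 → Finset V) i)
          ((Fin.cons {p} (Fin.cons {q} B) : Fin 5 → Finset V) j) := by
      intro i j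
      refine Fin.cases ?_ (fun i => ?_) i
      · refine Fin.cases ?_ (fun j => ?_) j
        · intro h
          exact absurd h (lt_irrefl _)
        · intro _
          rw [Fin.cons_zero, Fin.cons_succ, Finset.disjoint_singleton_left]
          refine Fin.cases ?_ (fun j => ?_) j
          · rw [Fin.cons_zero, Finset.mem_singleton]
            exact hne
          · rw [Fin.cons_succ]
            exact (hB j).2.1
      · refine Fin.cases ?_ (fun j => ?_) j
        · intro h
          exact absurd h (Fin.not_lt_zero _)
        · rw [Fin.cons_succ, Fin.cons_succ, Fin.succ_lt_succ_iff]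
          refine Fin.cases ?_ (fun i => ?_) i
          · refine Fin.cases ?_ (fun j => ?_) j
            · intro h
              exact absurd h (lt_irrefl _)
            · intro _
              rw [Fin.cons_zero, Fin.cons_succ, Finset.disjoint_singleton_left]
              exact (hB j).2.2.1
          · refine Fin.cases ?_ (fun j => ?_) j
            · intro h
              exact absurd h (Fin.not_lt_zero _)
            · rw [Fin.cons_succ, Fin.cons_succ, Fin.succ_lt_succ_iff]
              intro h
              exact hd i j h.ne
    intro i j hij
    rcases lt_or_gt_of_ne hij with h | h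
    · exact key i j h
    · exact (key j i h).symm
  · have key : ∀ i j : Fin 5, i < j →
        ∃ x ∈ (Fin.cons {p} (Fin.cons {q} B) : Fin 5 → Finset V) i,
          ∃ y ∈ (Fin.cons {p} (Fin.cons {q} B) : Fin 5 → Finset V) j, G.Adj x y := by
      intro i j
      refine Fin.cases ?_ (fun i => ?_) i
      · refine Fin.cases ?_ (fun j => ?_) j
        · intro h
          exact absurd h (lt_irrefl _)
        · intro _
          rw [Fin.cons_zero, Fin.cons_succ]
          refine ⟨p, Finset.mem_singleton_self p, ?_⟩
          refine Fin.cases ?_ (fun j => ?_) j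
          · rw [Fin.cons_zero]
            exact ⟨q, Finset.mem_singleton_self q, hpq⟩
          · rw [Fin.cons_succ]
            exact (hB j).2.2.2.2.1
      · refine Fin.cases ?_ (fun j => ?_) j
        · intro h
          exact absurd h (Fin.not_lt_zero _)
        · rw [Fin.cons_succ, Fin.cons_succ, Fin.succ_lt_succ_iff]
          refine Fin.cases ?_ (fun i => ?_) i
          · refine Fin.cases ?_ (fun j => ?_) j
            · intro h
              exact absurd h (lt_irrefl _)
            · intro _
              rw [Fin.cons_zero, Fin.cons_succ]
              exact ⟨q, Finset.mem_singleton_self q, (hB j).2.2.2.2.2⟩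
          · refine Fin.cases ?_ (fun j => ?_) j
            · intro h
              exact absurd h (Fin.not_lt_zero _)
            · rw [Fin.cons_succ, Fin.cons_succ, Fin.succ_lt_succ_iff]
              intro h
              exact ha i j h.ne
    intro i j hij
    rcases lt_or_gt_of_ne hij with h | h
    · exact key i j h
    · obtain ⟨x, hx, y, hy, hxy⟩ := key j i h
      exact ⟨y, hy, x, hx, hxy.symm⟩

end Pool.Agent.L0h36.MD
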